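import Mathlib
import Pool.Agent.R286.CU.D3
import Pool.Agent.R286.CU.W
import Pool.Agent.R286.CU.F
import Pool.Agent.R286.CU.K

/-!
# Cubic averages converge in rigid uniquely ergodic systems (MP_e4c747_an, Q1: the answer is no)

If `(X, T)` is uniquely ergodic with invariant measure `μ` and satisfies the rigidity condition (R)
of the problem, then for every continuous `f : X → ℂ` the cubic averages
`(1/N) ∑_{i<N} f (T^{i^3} x)` converge to `∫ f dμ` uniformly in `x`.
-/

set_option autoImplicit false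

open Finset Filter MeasureTheory Topology

namespace Pool.Agent.Results.MP_e4c747_an.CubicAverages

universe u

/-- There is exactly one `T`-invariant Borel probability measure. -/
def UniquelyErgodic {X : Type u} [MetricSpace X] [MeasurableSpace X] (T : X ≃ₜ X) : Prop :=
  ∃! μ : Measure X, IsProbabilityMeasure μ ∧ MeasurePreserving T μ μ

/-- Rigidity condition (R) along the sequence `q`: the positive integers `q 0 < q 1 < ...` satisfy
`gcd (q n, q (n+1)) = 1`, and the supremum over `x ∈ X` and `0 ≤ t < (q (n+1))^{4/5}` of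
`d (x, T^{t q_n} x)` tends to `0`. -/
def RigidAlong {X : Type u} [MetricSpace X] (T : X ≃ₜ X) (q : ℕ → ℕ) : Prop :=
  StrictMono q ∧ (∀ n, 0 < q n) ∧ (∀ n, Nat.Coprime (q n) (q (n + 1))) ∧
    ∀ ε : ℝ, 0 < ε → ∃ n0 : ℕ, ∀ n, n0 ≤ n → ∀ t : ℕ, (t : ℝ) < (q (n + 1) : ℝ) ^ (4 / 5 : ℝ) →
      ∀ x : X, dist x (T^[t * q n] x) ≤ ε

/-- **Main result.** In a uniquely ergodic system on a compact metric space which satisfies
condition (R), all cubic averages of continuous functions converge, uniformly, to the integral. -/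
theorem result (X : Type u) [MetricSpace X] [CompactSpace X] [MeasurableSpace X] [BorelSpace X]
    (T : X ≃ₜ X) (hT : UniquelyErgodic T) (hR : ∃ q : ℕ → ℕ, RigidAlong T q)
    (μ : Measure X) (hμ : IsProbabilityMeasure μ) (hinv : MeasurePreserving T μ μ) (f : C(X, ℂ)) :
    TendstoUniformly (fun (N : ℕ) (x : X) => (1 / (N : ℂ)) * ∑ i ∈ range N, f (T^[i ^ 3] x))
      (fun _ => ∫ x, f x ∂μ) atTop := by
  obtain ⟨q, hq⟩ := hR
  have huniq : ∀ ν : Measure X, IsProbabilityMeasure ν → MeasurePreserving T ν ν → ν = μ :=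
    fun ν h1 h2 => hT.unique ⟨h1, h2⟩ ⟨hμ, hinv⟩
  exact Pool.Agent.R286.CU.complex_case Pool.Agent.R286.CU.stW Pool.Agent.R286.CU.stKL
    Pool.Agent.R286.CU.stF T μ huniq q hq f

end Pool.Agent.Results.MP_e4c747_an.CubicAverages
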